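import Pool.Agent.Helper24.KK.GoalsA

/-! Packet KK-CRD (project KK of helper24): cardinality of the index set. -/

set_option autoImplicit false

namespace Pool.Agent.Helper73.KK

open Finset Pool.Agent.Helper24.KK

theorem card_Sl (Φ : Type) [Fintype Φ] [DecidableEq Φ] (l : ℕ) :
    Fintype.card (Sl Φ l) = (Fintype.card Φ).choose l := by
  simp [Sl]

theorem crd : CRD := by
  intro Φ _ _ l hR
  have h1 : (Fintype.card (Ix Φ l) : ℝ) = ((Fintype.card Φ).choose l : ℝ) ^ 2 := by
    have : Fintype.card (Ix Φ l) = Fintype.card (Sl Φ l) * Fintype.card (Sl Φ l) :=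
      Fintype.card_prod _ _
    rw [this, card_Sl]
    push_cast
    ring
  refine ⟨h1, ?_⟩
  rw [h1]
  have hR' : (0 : ℝ) < (Fintype.card Φ : ℝ) := by exact_mod_cast hR
  have h2 : ((Fintype.card Φ).choose l : ℝ) ≤ (Fintype.card Φ : ℝ) ^ l := by
    exact_mod_cast Nat.choose_le_pow _ _
  have h3 : Real.exp (2 * l * Real.log (Fintype.card Φ)) = ((Fintype.card Φ : ℝ) ^ l) ^ 2 := by
    have : (2 : ℝ) * l * Real.log (Fintype.card Φ) =
        ((2 * l : ℕ) : ℝ) * Real.log (Fintype.card Φ) := by push_cast; ring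
    rw [this, Real.exp_nat_mul, Real.exp_log hR', ← pow_mul, mul_comm]
  rw [h3]
  exact pow_le_pow_left₀ (by positivity) h2 2

end Pool.Agent.Helper73.KK
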